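import Pool.Agent.R475.AW

/-!
Mean area of square-lattice self-avoiding polygons: for most `n` the ratio `A_{n+1} / A_n` is within
`O(√(log n / n))` of one, and `A_n ~ c n^θ` somewhere in all intervals `[n, n + δ √n]` implies it for
almost all `n`.
-/

set_option autoImplicit false

namespace Pool.Agent.Results.MP_2250b1_co.AlmostAllPerimeters

open Filter Topology

/-- a closed nearest-neighbour loop on `ℤ²` with `m` steps, rooted at the origin and oriented,
that visits no vertex twice -/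
def IsLoop (m : ℕ) (f : ZMod m → ℤ × ℤ) : Prop :=
  f 0 = 0 ∧ Function.Injective f ∧
    ∀ i : ZMod m, |(f (i + 1)).1 - (f i).1| + |(f (i + 1)).2 - (f i).2| = 1

/-- the edge from `f k` to `f (k+1)` is horizontal, joins the columns `x = a` and `x = a + 1`, and
has height larger than `b`: it lies above the unit cell `[a, a+1] × [b, b+1]` -/
def Above (m : ℕ) (f : ZMod m → ℤ × ℤ) (a b : ℤ) (k : ZMod m) : Prop :=
  (((f k).1 = a ∧ (f (k + 1)).1 = a + 1) ∨ ((f k).1 = a + 1 ∧ (f (k + 1)).1 = a)) ∧ b < (f k).2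

/-- the unit cell `[a, a+1] × [b, b+1]` is enclosed by the loop: the vertical ray from the cell
upwards crosses an odd number of edges -/
def Encl (m : ℕ) (f : ZMod m → ℤ × ℤ) (c : ℤ × ℤ) : Prop :=
  Odd (Nat.card {k : ZMod m // Above m f c.1 c.2 k})

/-- the area: the number of unit cells enclosed by the loop -/
noncomputable def area (m : ℕ) (f : ZMod m → ℤ × ℤ) : ℕ := Nat.card {c : ℤ × ℤ // Encl m f c}

/-- the mean area `A_n` of the self-avoiding polygons of perimeter `2 n`: the average of the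
area over the rooted oriented polygons. -/
noncomputable def A (n : ℕ) : ℝ :=
  (∑ᶠ f ∈ {f : ZMod (2 * n) → ℤ × ℤ | IsLoop (2 * n) f}, (area (2 * n) f : ℝ)) /
    ({f : ZMod (2 * n) → ℤ × ℤ | IsLoop (2 * n) f}.ncard : ℝ)

/-- **Theorem.** (1) There is `K` such that for all large `N` and all `M ≥ 1` at most `K N / M²` of
the `n` with `N ≤ n < 2 N` have `|A_{n+1} / A_n - 1| > M √(log N / N)`.
(2) Let `θ > 1` and `c > 0`. If for all `ε, δ > 0` and all large `n` there is `k` in `[n, n + δ √n]`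
with `|A_k / k^θ - c| ≤ ε`, then for every `ε > 0` the proportion of the `n` in `[N, 2 N)` with
`|A_n / n^θ - c| > ε` tends to `0`. -/
theorem result :
    (∃ K : ℝ, ∀ᶠ N : ℕ in atTop, ∀ M : ℝ, 1 ≤ M →
      (Nat.card {n : ℕ // N ≤ n ∧ n < 2 * N ∧ M * √(Real.log N / N) < |A (n + 1) / A n - 1|} : ℝ) ≤
        K * N / M ^ 2) ∧
    ∀ θ c : ℝ, 1 < θ → 0 < c →
      (∀ ε δ : ℝ, 0 < ε → 0 < δ → ∀ᶠ n : ℕ in atTop, ∃ k : ℕ, |A k / (k : ℝ) ^ θ - c| ≤ ε ∧
        n ≤ k ∧ (k : ℝ) ≤ n + δ * √(n : ℝ)) →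
      ∀ ε : ℝ, 0 < ε → Tendsto (fun N : ℕ =>
        (Nat.card {n : ℕ // N ≤ n ∧ n < 2 * N ∧ ε < |A n / (n : ℝ) ^ θ - c|} : ℝ) / N) atTop (𝓝 0)
    := by
  classical
  have hcard : ∀ (N : ℕ) (P : ℕ → Prop) [DecidablePred P],
      Nat.card {n : ℕ // N ≤ n ∧ n < 2 * N ∧ P n} = ((Finset.Ico N (2 * N)).filter P).card := by
    intro N P _
    rw [← Nat.card_eq_finsetCard]
    refine Nat.card_congr (Equiv.subtypeEquivRight fun n => ?_)
    rw [Finset.mem_filter, Finset.mem_Ico]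
    tauto
  refine ⟨?_, ?_⟩
  · obtain ⟨B, hB⟩ := Pool.Agent.R475.AL.area_rate
    refine ⟨B, ?_⟩
    filter_upwards [hB] with N hN M hM
    have h := hN M hM
    rw [hcard]
    exact h
  · intro θ c hθ hc hX ε hε
    have h := Pool.Agent.R475.AL.area_form hθ hc hX ε hε
    refine h.congr fun N => ?_
    rw [hcard]
    rfl

end Pool.Agent.Results.MP_2250b1_co.AlmostAllPerimeters
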