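import Pool.Agent.H726.AL.Loops

/-!
Square-lattice self-avoiding polygons with area fugacity: area-raising and area-lowering free
corners are in balance, with Gaussian self-normalised fluctuations.
-/

set_option autoImplicit false

namespace Pool.Agent.Results.MP_2250b1_co.CornerBalance

/-- a closed nearest-neighbour loop on `ℤ²` with `m` steps, rooted at the origin and oriented,
that visits no vertex twice -/
def IsLoop (m : ℕ) (f : ZMod m → ℤ × ℤ) : Prop :=
  f 0 = 0 ∧ Function.Injective f ∧
    ∀ i : ZMod m, |(f (i + 1)).1 - (f i).1| + |(f (i + 1)).2 - (f i).2| = 1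

/-- the edge from `f k` to `f (k+1)` is horizontal, joins the columns `x = a` and `x = a + 1`, and
has height larger than `b`: it lies above the unit cell `[a, a+1] × [b, b+1]` -/
def Above (m : ℕ) (f : ZMod m → ℤ × ℤ) (a b : ℤ) (k : ZMod m) : Prop :=
  (((f k).1 = a ∧ (f (k + 1)).1 = a + 1) ∨ ((f k).1 = a + 1 ∧ (f (k + 1)).1 = a)) ∧ b < (f k).2

/-- the unit cell `[a, a+1] × [b, b+1]` is enclosed by the loop: the vertical ray from the cell
upwards crosses an odd number of edges -/
def Encl (m : ℕ) (f : ZMod m → ℤ × ℤ) (c : ℤ × ℤ) : Prop :=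
  Odd (Nat.card {k : ZMod m // Above m f c.1 c.2 k})

/-- the area: the number of unit cells enclosed by the loop -/
noncomputable def area (m : ℕ) (f : ZMod m → ℤ × ℤ) : ℕ := Nat.card {c : ℤ × ℤ // Encl m f c}

/-- the flip of the corner number `k`: the vertex `f k` is replaced by the opposite vertex
`f (k-1) + f (k+1) - f k` of the unit square spanned by the two edges at `f k` -/
def flip (m : ℕ) (f : ZMod m → ℤ × ℤ) (k : ZMod m) : ZMod m → ℤ × ℤ :=
  Function.update f k (f (k - 1) + f (k + 1) - f k)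

/-- the number of free corners, away from the root edge between `f (-1)` and `f 0`, whose flip
changes the area by `z`; a corner is free if the opposite vertex is not visited -/
noncomputable def corners (m : ℕ) (f : ZMod m → ℤ × ℤ) (z : ℤ) : ℕ :=
  Nat.card {k : ZMod m // k ≠ 0 ∧ k ≠ -1 ∧ (∀ j, f j ≠ f (k - 1) + f (k + 1) - f k) ∧
    (area m (flip m f k) : ℤ) = area m f + z}

/-- probability of `Q` for the polygons of perimeter `2 n` when a polygon of area `a` has weight
`x ^ a`; for `x = 1` this is the uniform law -/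
noncomputable def P (n : ℕ) (x : ℝ) (Q : (ZMod (2 * n) → ℤ × ℤ) → Prop) : ℝ :=
  (∑ᶠ f ∈ {f : ZMod (2 * n) → ℤ × ℤ | IsLoop (2 * n) f ∧ Q f}, x ^ area (2 * n) f) /
    (∑ᶠ f ∈ {f : ZMod (2 * n) → ℤ × ℤ | IsLoop (2 * n) f}, x ^ area (2 * n) f)

/-- **Theorem.** For every `x > 0` there is `c > 0` such that for all `n ≥ 2` and `t ≥ 0`, with
`U` and `D` the numbers of free corners whose flip raises, resp. lowers, the area by one:
`P_{n,x}(|x U - D| > t √(U + D)) ≤ 4 e n exp (- c t²)`. -/
theorem result (x : ℝ) (hx : 0 < x) : ∃ c : ℝ, 0 < c ∧ ∀ n : ℕ, 2 ≤ n → ∀ t : ℝ, 0 ≤ t →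
    P n x (fun f => t * Real.sqrt (corners (2 * n) f 1 + corners (2 * n) f (-1)) <
      |x * corners (2 * n) f 1 - corners (2 * n) f (-1)|) ≤
      4 * Real.exp 1 * n * Real.exp (-(c * t ^ 2)) :=
  H726.AL.corner_balance x hx

end Pool.Agent.Results.MP_2250b1_co.CornerBalance
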